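import Mathlib
import Pool.Agent.H20.LSS3

set_option autoImplicit false

namespace Pool.Agent.Results.MP_3122b6_ag.Prime
open MvPolynomial

/-- the edges are nonempty and no edge is contained in another edge -/
def IsClutter {n : ℕ} (E : Finset (Finset (Fin n))) : Prop :=
  (∀ A ∈ E, A.Nonempty) ∧ ∀ A ∈ E, ∀ B ∈ E, A ⊆ B → A = B

/-- `f_A^{(d)} = ∑_j ∏_{i ∈ A} y_{i,j}` -/
noncomputable def gen (K : Type*) [Field K] {n : ℕ} (d : ℕ) (A : Finset (Fin n)) :
    MvPolynomial (Fin n × Fin d) K :=
  ∑ j : Fin d, ∏ i ∈ A, X (i, j)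

/-- the LSS ideal `L_H(d)` -/
noncomputable def LSS (K : Type*) [Field K] {n : ℕ} (d : ℕ) (E : Finset (Finset (Fin n))) :
    Ideal (MvPolynomial (Fin n × Fin d) K) :=
  Ideal.span (gen K d '' (E : Set (Finset (Fin n))))

open Pool.Agent.H20.LSS

variable {K : Type*} [Field K] {V : Type*} [Fintype V] [DecidableEq V]

omit [Fintype V] in
lemma det_notMem {d : ℕ} {E : Finset (Finset V)} (hE : Clutter E) (v : V) {ι : Type*} [Fintype ι]
    [DecidableEq ι] (row : ι → Finset V) (hr : Function.Injective row) (hrE : ∀ a, row a ∈ E)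
    (hv : ∀ a, v ∈ row a) (col : ι → Fin d) (hc : Function.Injective col) :
    (Matrix.of fun a b => ∏ i ∈ (row a).erase v, (X (i, col b) : MvPolynomial (V × Fin d) K)).det ∉
      L K d E := by
  classical
  intro hm
  let x : V × Fin d → K := fun p => if ∃ b, col b = p.2 ∧ p.1 ∈ (row b).erase v then 1 else 0
  have hx : ∀ i b, x (i, col b) = if i ∈ (row b).erase v then 1 else 0 := by
    intro i b
    simp only [x]
    congr 1
    exact propext ⟨fun ⟨b', h1, h2⟩ => hc h1 ▸ h2, fun h => ⟨b, rfl, h⟩⟩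
  have h1 : L K d E ≤ RingHom.ker (eval x) := by
    refine Ideal.span_le.2 ?_
    rintro _ ⟨B, hB, rfl⟩
    show eval x _ = 0
    simp only [f, map_sum, map_prod, eval_X]
    refine Finset.sum_eq_zero fun j _ => ?_
    by_cases hj : ∃ b, col b = j
    · obtain ⟨b, rfl⟩ := hj
      have : ¬ B ⊆ (row b).erase v := fun h => by
        have h2 := hE.2 B hB _ (hrE b) (h.trans (Finset.erase_subset _ _))
        have := h (h2 ▸ hv b)
        simp at this
      obtain ⟨i, hi, hi'⟩ := Finset.not_subset.1 this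
      exact Finset.prod_eq_zero hi (by rw [hx, if_neg hi'])
    · obtain ⟨i, hi⟩ := hE.1 B hB
      exact Finset.prod_eq_zero hi (if_neg fun ⟨b, h, _⟩ => hj ⟨b, h⟩)
  have h2 := h1 hm
  rw [RingHom.mem_ker, RingHom.map_det] at h2
  have h3 : (eval x).mapMatrix (Matrix.of fun a b => ∏ i ∈ (row a).erase v,
      (X (i, col b) : MvPolynomial (V × Fin d) K)) = 1 := by
    ext a b
    simp only [RingHom.mapMatrix_apply, Matrix.map_apply, Matrix.of_apply, map_prod, eval_X, hx]
    by_cases hab : a = b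
    · subst hab
      rw [Matrix.one_apply_eq]
      exact Finset.prod_eq_one fun i hi => if_pos hi
    · rw [Matrix.one_apply_ne hab]
      obtain ⟨i, hi, hi'⟩ := Finset.not_subset.1 fun h => hab (hr (hE.2 _ (hrE a) _ (hrE b) h))
      refine Finset.prod_eq_zero (Finset.mem_erase.2 ⟨fun h : i = v => hi' (h ▸ hv b), hi⟩) (if_neg fun h => ?_)
      exact hi' (Finset.mem_of_mem_erase h)
  rw [h3] at h2
  simp at h2

omit [Fintype V] in
lemma f_split {d : ℕ} {B : Finset V} {v : V} (h : v ∈ B) :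
    f K d B = ∑ j, (∏ i ∈ B.erase v, X (i, j)) * X (v, j) :=
  Finset.sum_congr rfl fun j _ => (Finset.prod_erase_mul B (fun i => X (i, j)) h).symm

omit [Fintype V] in
lemma exists_dual {d : ℕ} (hd : 0 < d) {E : Finset (Finset V)} (hE : Clutter E) {F : Type*} [Field F]
    (η : MvPolynomial (V × Fin d) K →+* F) (hη : ∀ x, η x = 0 ↔ x ∈ L K d E) {A : Finset V} (hA : A ∈ E)
    {v : V} (hv : v ∈ A) : ∃ z : Fin d → F, ∀ B ∈ E, v ∈ B →
      ∑ j, η (∏ i ∈ B.erase v, X (i, j)) * z j = if B = A then 1 else 0 := by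
  classical
  let En := E.filter (v ∈ ·)
  have hEn : ∀ B : En, B.1 ∈ E ∧ v ∈ B.1 := fun B => Finset.mem_filter.1 B.2
  rcases le_or_gt (Fintype.card En) (Fintype.card (Fin d)) with h | h
  · obtain ⟨c⟩ := Function.Embedding.nonempty_of_card_le h
    have h1 := mt (hη _).1 (det_notMem (K := K) hE v (fun B : En => B.1) Subtype.val_injective
      (fun B => (hEn B).1) (fun B => (hEn B).2) c c.injective)
    rw [RingHom.map_det] at h1
    set N := η.mapMatrix (Matrix.of fun a b : En => ∏ i ∈ a.1.erase v,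
      (X (i, c b) : MvPolynomial (V × Fin d) K)) with hN
    have h2 : N * N⁻¹ = 1 := Matrix.mul_nonsing_inv _ (Ne.isUnit h1)
    let a0 : En := ⟨A, Finset.mem_filter.2 ⟨hA, hv⟩⟩
    refine ⟨fun j => ∑ b, if c b = j then N⁻¹ b a0 else 0, fun B hB hvB => ?_⟩
    let b0 : En := ⟨B, Finset.mem_filter.2 ⟨hB, hvB⟩⟩
    have h3 := congrFun (congrFun h2 b0) a0
    rw [Matrix.mul_apply, Matrix.one_apply] at h3
    simp only [Finset.mul_sum, mul_ite, mul_zero]
    rw [Finset.sum_comm]
    simp only [Finset.sum_ite_eq, Finset.mem_univ, if_true]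
    convert h3 using 2
    · rfl
    · simp [a0, b0]
  · exfalso
    obtain ⟨c⟩ := Function.Embedding.nonempty_of_card_le h.le
    have h1 := mt (hη _).1 (det_notMem (K := K) hE v (fun j : Fin d => (c j).1)
      (Subtype.val_injective.comp c.injective) (fun j => (hEn _).1) (fun j => (hEn _).2) id
      Function.injective_id)
    rw [RingHom.map_det] at h1
    have h2 := Matrix.eq_zero_of_mulVec_eq_zero h1 (v := fun j => η (X (v, j))) (by
      funext a
      have := (hη _).2 (Ideal.subset_span ⟨(c a).1, (hEn _).1, rfl⟩ : f K d (c a).1 ∈ L K d E)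
      rw [f_split (hEn _).2, map_sum] at this
      simpa [Matrix.mulVec, dotProduct] using this)
    have h3 : (X (v, ⟨0, hd⟩) : MvPolynomial (V × Fin d) K) ∈ L K d E := (hη _).1 (congrFun h2 _)
    have h4 : L K d E ≤ RingHom.ker
        (eval (fun p : V × Fin d => if p.2 = ⟨0, hd⟩ ∧ p.1 ∈ ({v} : Finset V) then (1 : K) else 0)) := by
      refine Ideal.span_le.2 ?_
      rintro _ ⟨B, hB, rfl⟩
      show eval _ _ = 0
      rw [eval_f _ _ _ (hE.1 B hB), if_neg]
      intro hBv
      have : Fintype.card En ≤ 1 := Fintype.card_le_one_iff.2 fun a b => Subtype.ext <|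
        (hE.2 B hB _ (hEn a).1 (hBv.trans (Finset.singleton_subset_iff.2 (hEn a).2))).symm.trans
          (hE.2 B hB _ (hEn b).1 (hBv.trans (Finset.singleton_subset_iff.2 (hEn b).2)))
      rw [Fintype.card_fin] at h
      omega
    have := h4 h3
    simp [RingHom.mem_ker] at this

omit [Fintype V] in
lemma erase_prime {d : ℕ} (hd : 0 < d) {E : Finset (Finset V)} (hE : Clutter E)
    (hp : (L K d E).IsPrime) {A : Finset V} (hA : A ∈ E) : (L K d (E.erase A)).IsPrime := by
  let F := FractionRing (MvPolynomial (V × Fin d) K ⧸ L K d E)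
  let η : MvPolynomial (V × Fin d) K →+* F :=
    (algebraMap (MvPolynomial (V × Fin d) K ⧸ L K d E) F).comp (Ideal.Quotient.mk _)
  have hη : ∀ x, η x = 0 ↔ x ∈ L K d E := fun x => by
    rw [RingHom.comp_apply, map_eq_zero_iff _ (IsFractionRing.injective _ _), Ideal.Quotient.eq_zero_iff_mem]
  obtain ⟨v, hv⟩ := hE.1 A hA
  obtain ⟨z, hz⟩ := exists_dual hd hE η hη hA hv
  let ψ : MvPolynomial (V × Fin d) K →+* Polynomial F :=
    eval₂Hom (Polynomial.C.comp (η.comp C)) fun p =>
      Polynomial.C (η (X p)) + if p.1 = v then Polynomial.C (z p.2) * Polynomial.X else 0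
  have hψ0 : ∀ x, (ψ x).eval 0 = η x := by
    intro x
    induction x using MvPolynomial.induction_on with
    | C a => simp [ψ]
    | add p q hp hq => simp only [map_add, Polynomial.eval_add, hp, hq]
    | mul_X p i hp =>
      simp only [map_mul, Polynomial.eval_mul, hp]
      congr 1
      by_cases h : i.1 = v <;> simp [ψ, h]
  have hψ1 : ∀ (B : Finset V) j, v ∉ B → ψ (∏ i ∈ B, X (i, j)) = Polynomial.C (η (∏ i ∈ B, X (i, j))) := by
    intro B j hB
    simp only [map_prod]
    exact Finset.prod_congr rfl fun i hi => by simp [ψ, show i ≠ v from fun h => hB (h ▸ hi)]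
  have hψ : ∀ B ∈ E, ψ (f K d B) = if B = A then Polynomial.X else 0 := by
    intro B hB
    have h0 := (hη _).2 (Ideal.subset_span ⟨B, hB, rfl⟩ : f K d B ∈ L K d E)
    by_cases hvB : v ∈ B
    · rw [f_split hvB, map_sum] at h0 ⊢
      have h1 : ∀ j, ψ ((∏ i ∈ B.erase v, X (i, j)) * X (v, j)) =
          Polynomial.C (η ((∏ i ∈ B.erase v, X (i, j)) * X (v, j))) +
            Polynomial.C (η (∏ i ∈ B.erase v, X (i, j)) * z j) * Polynomial.X := by
        intro j
        have : ψ (X (v, j)) = Polynomial.C (η (X (v, j))) + Polynomial.C (z j) * Polynomial.X := by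
          simp [ψ]
        rw [map_mul, hψ1 _ _ (Finset.notMem_erase v B), this, map_mul, map_mul, map_mul]
        ring
      simp only [h1]
      rw [Finset.sum_add_distrib, ← map_sum, h0, ← Finset.sum_mul, ← map_sum, hz B hB hvB]
      split_ifs <;> simp
    · rw [if_neg fun h : B = A => hvB (h ▸ hv), f, map_sum]
      simp only [hψ1 B _ hvB]
      rw [← map_sum, ← map_sum]
      exact (congrArg _ h0).trans (map_zero _)
  let _ := weightedGradedAlgebra K (fun _ : V × Fin d => 1)
  have hf : ∀ B : Finset V, f K d B ∈ weightedHomogeneousSubmodule K (fun _ : V × Fin d => 1) B.card := by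
    intro B
    refine sum_mem fun j _ => ?_
    rw [Finset.card_eq_sum_ones]
    exact IsWeightedHomogeneous.prod _ _ _ fun i _ => isWeightedHomogeneous_X K _ (i, j)
  have hs := sep_of_homogeneous (weightedHomogeneousSubmodule K (fun _ : V × Fin d => 1))
    (I := L K d (E.erase A)) (Ideal.homogeneous_span _ _ (by rintro _ ⟨B, _, rfl⟩; exact ⟨_, hf B⟩))
    (hE.1 A hA).card_pos (hf A)
  have := hs.eq_of_between (RingHom.ker_isPrime ψ) (Ideal.span_le.2 ?_) (fun x hx => ?_) ?_
  · rw [this]; exact RingHom.ker_isPrime ψ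
  · rintro _ ⟨B, hB, rfl⟩
    have hB' := Finset.mem_erase.1 hB
    show ψ _ = 0
    rw [hψ B hB'.2, if_neg hB'.1]
  · have h1 : x ∈ L K d E := by
      rw [← hη, ← hψ0, RingHom.mem_ker.1 hx, Polynomial.eval_zero]
    rw [← Finset.insert_erase hA, L, Finset.coe_insert, Set.image_insert_eq, Ideal.span_insert,
      sup_comm] at h1
    exact h1
  · rw [RingHom.mem_ker, hψ A hA, if_pos rfl]
    exact Polynomial.X_ne_zero

omit [Fintype V] in
lemma sub_prime {d : ℕ} (hd : 0 < d) (k : ℕ) : ∀ {E : Finset (Finset V)}, Clutter E →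
    (L K d E).IsPrime → ∀ E' ⊆ E, E.card = E'.card + k → (L K d E').IsPrime := by
  induction k with
  | zero =>
    intro E _ hp E' h hc
    rwa [Finset.eq_of_subset_of_card_le h (by omega)]
  | succ k ih =>
    intro E hE hp E' h hc
    obtain ⟨A, hA, hA'⟩ := Finset.exists_mem_notMem_of_card_lt_card (show E'.card < E.card by omega)
    refine ih ⟨fun B hB => hE.1 B (Finset.mem_of_mem_erase hB), fun B hB C hC =>
      hE.2 B (Finset.mem_of_mem_erase hB) C (Finset.mem_of_mem_erase hC)⟩ (erase_prime hd hE hp hA) E'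
      (fun B hB => Finset.mem_erase.2 ⟨fun h' => hA' (h' ▸ hB), h hB⟩) ?_
    rw [Finset.card_erase_of_mem hA]; omega

theorem result (K : Type*) [Field K] (n : ℕ) (E : Finset (Finset (Fin n))) (hE : IsClutter E)
    (d : ℕ) (hd : 1 ≤ d) (hp : (LSS K d E).IsPrime) : (LSS K (d + 1) E).IsPrime := by
  refine step (K := K) (M := ∅) hd hE (by simp) 1 (fun _ => 0) Finset.card (by simp)
    (fun A hA => by simpa using (hE.1 A hA).ne_empty) (fun E' h => ?_) E le_rfl
  rw [Finset.sdiff_empty] at h
  exact sub_prime hd (E.card - E'.card) hE hp E' h (by have := Finset.card_le_card h; omega)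

end Pool.Agent.Results.MP_3122b6_ag.Prime
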